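import Mathlib
import Pool.Agent.Lib.MP_95ac01_nt.H98.Small

/-!
# MP_95ac01_nt: the Hasse principle for almost all cubic surfaces, with small points

Beside the proof of the frozen statement S17823: the same theorem in the terms of the problem file
(real `H`, nonzero forms, zeros in `ℤ^4`), and with rational points of height at most `ψ(H) H`
for an arbitrary function `ψ → ∞`.
-/

set_option autoImplicit false

namespace Pool.Agent.Results.MP_95ac01_nt.SmallPoints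

open Filter Topology Asymptotics

/-- The nonzero cubic forms in four variables over `ℤ` of height at most `H`. -/
def forms (H : ℝ) : Set (MvPolynomial (Fin 4) ℤ) :=
  {f | f ≠ 0 ∧ f.IsHomogeneous 3 ∧ ∀ m, |((f.coeff m : ℤ) : ℝ)| ≤ H}

/-- `f` has a nontrivial real zero and a nontrivial `p`-adic zero for every prime `p`. -/
def LocallySoluble (f : MvPolynomial (Fin 4) ℤ) : Prop :=
  (∃ x : Fin 4 → ℝ, x ≠ 0 ∧ MvPolynomial.aeval x f = 0) ∧
    ∀ (p : ℕ) [Fact p.Prime], ∃ x : Fin 4 → ℚ_[p], x ≠ 0 ∧ MvPolynomial.aeval x f = 0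

/-- `N_tot(H)`. -/
noncomputable def Ntot (H : ℝ) : ℕ := (forms H).ncard

/-- `N(H)`: the forms with a zero in `ℤ^4 ∖ {0}`. -/
noncomputable def N (H : ℝ) : ℕ :=
  {f | f ∈ forms H ∧ ∃ x : Fin 4 → ℤ, x ≠ 0 ∧ MvPolynomial.eval x f = 0}.ncard

/-- The forms of height at most `H` with a zero in `ℤ^4 ∖ {0}` of height at most `X`. -/
noncomputable def Nsmall (X H : ℝ) : ℕ :=
  {f | f ∈ forms H ∧ ∃ x : Fin 4 → ℤ, x ≠ 0 ∧ (∀ i, |((x i : ℤ) : ℝ)| ≤ X) ∧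
    MvPolynomial.eval x f = 0}.ncard

/-- `N_loc(H)`: the everywhere locally soluble forms. -/
noncomputable def Nloc (H : ℝ) : ℕ := {f | f ∈ forms H ∧ LocallySoluble f}.ncard

/-! ## Translation -/

open Cub Pool.Agent.Lib.MP_95ac01_nt.H87 Cub.H98

theorem toP_eq_zero_iff (c : Mon → ℤ) : toP c = 0 ↔ c = 0 := by
  have h0 : toP (0 : Mon → ℤ) = 0 := by unfold toP; simp
  rw [← h0, toP_injective.eq_iff]

theorem bound_iff {H : ℝ} (hH : 0 ≤ H) (f : MvPolynomial (Fin 4) ℤ) :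
    (∀ m, |((f.coeff m : ℤ) : ℝ)| ≤ H) ↔ ∀ m, |f.coeff m| ≤ ((⌊H⌋₊ : ℕ) : ℤ) := by
  refine forall_congr' fun m => ?_
  have h1 : (((f.coeff m).natAbs : ℕ) : ℝ) = |((f.coeff m : ℤ) : ℝ)| := by
    rw [Nat.cast_natAbs]; push_cast; rfl
  rw [← h1, ← Nat.le_floor_iff hH, Int.abs_eq_natAbs]
  norm_cast

open Classical in
theorem ncard_forms {H : ℝ} (hH : 0 ≤ H) (P : MvPolynomial (Fin 4) ℤ → Prop) :
    {f | f ∈ forms H ∧ P f}.ncard =
      ((box ⌊H⌋₊).filter fun c => c ≠ 0 ∧ P (toP c)).card := by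
  have h : {f | f ∈ forms H ∧ P f} = ({f : MvPolynomial (Fin 4) ℤ | f.IsHomogeneous 3 ∧
      (∀ m, |f.coeff m| ≤ ((⌊H⌋₊ : ℕ) : ℤ)) ∧ (f ≠ 0 ∧ P f)} : Set (MvPolynomial (Fin 4) ℤ)) := by
    ext f
    simp only [forms, Set.mem_ofPred_eq]
    rw [bound_iff hH]
    tauto
  rw [h]
  refine ncard_eq _ (fun f => f ≠ 0 ∧ P f) _ fun c => ?_
  rw [Finset.mem_filter, ne_eq, ne_eq, toP_eq_zero_iff]

theorem eval_toP (c : Mon → ℤ) (x : Fin 4 → ℤ) : MvPolynomial.eval x (toP c) = ev c x := by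
  have h := aeval_toP (R := ℤ) c x
  rw [MvPolynomial.aeval_def] at h
  rw [MvPolynomial.eval, MvPolynomial.coe_eval₂Hom]
  have e : cc ℤ c = c := by funext m; simp [cc]
  rw [e] at h
  exact h

theorem loc_iff (c : Mon → ℤ) : LocallySoluble (toP c) ↔ LocZ c := by
  unfold LocallySoluble LocZ RealZ PadZ
  simp only [aeval_toP]

/-- An integer zero is a rational zero. -/
theorem exists_int_of_ratZ {c : Mon → ℤ} (h : RatZ c) : ∃ x : Fin 4 → ℤ, x ≠ 0 ∧ ev c x = 0 := by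
  obtain ⟨x, hx, h0⟩ := h
  obtain ⟨d, hd⟩ := IsLocalization.exist_integer_multiples_of_finite (nonZeroDivisors ℤ) x
  choose y hy using hd
  have hd0 : ((d : ℤ) : ℚ) ≠ 0 := by
    have := nonZeroDivisors.ne_zero d.2
    exact_mod_cast this
  have hy' : ∀ i, ((y i : ℤ) : ℚ) = ((d : ℤ) : ℚ) * x i := by
    intro i
    have := hy i
    simpa using this
  refine ⟨y, ?_, ?_⟩
  · intro h1
    apply hx
    funext i
    have h2 := hy' i
    rw [h1] at h2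
    simp only [Pi.zero_apply, Int.cast_zero] at h2
    rcases mul_eq_zero.1 h2.symm with h3 | h3
    · exact absurd h3 hd0
    · simpa using h3
  · have h1 : ev (cc ℚ c) (cx ℚ y) = ((ev c y : ℤ) : ℚ) := ev_cast _ _ _
    have h2 : cx ℚ y = fun i => ((d : ℤ) : ℚ) * x i := by funext i; exact hy' i
    rw [h2, ev_smul_x, h0, mul_zero] at h1
    exact_mod_cast h1.symm

theorem ratZ_iff (c : Mon → ℤ) : RatZ c ↔ ∃ x : Fin 4 → ℤ, x ≠ 0 ∧ ev c x = 0 :=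
  ⟨exists_int_of_ratZ, fun ⟨_, hx, h⟩ => H90.ratZ_of_zero hx h⟩

theorem N_eq {H : ℝ} (hH : 0 ≤ H) : N H + 1 = (ratSet ⌊H⌋₊).card := by
  classical
  unfold N
  rw [ncard_forms hH]
  have h : ((box ⌊H⌋₊).filter fun c => c ≠ 0 ∧
      ∃ x : Fin 4 → ℤ, x ≠ 0 ∧ MvPolynomial.eval x (toP c) = 0) = (ratSet ⌊H⌋₊).erase 0 := by
    ext c
    simp only [Finset.mem_filter, Finset.mem_erase, ratSet, eval_toP, ratZ_iff]
    tauto
  rw [h, Finset.card_erase_add_one]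
  rw [ratSet, Finset.mem_filter, mem_box]
  refine ⟨by simp, (ratZ_iff _).2 ⟨fun _ => 1, fun h => ?_, ev_zero _⟩⟩
  exact one_ne_zero (congrFun h 0)

theorem N_le_Nloc {H : ℝ} (hH : 0 ≤ H) : N H ≤ Nloc H := by
  classical
  unfold N Nloc
  rw [ncard_forms hH, ncard_forms hH]
  refine Finset.card_le_card fun c hc => ?_
  rw [Finset.mem_filter] at hc ⊢
  refine ⟨hc.1, hc.2.1, (loc_iff c).2 (H90.ratZ_imp_locZ ((ratZ_iff c).2 ?_))⟩
  simpa only [eval_toP] using hc.2.2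

theorem Nloc_le_Ntot {H : ℝ} (hH : 0 ≤ H) : Nloc H ≤ Ntot H := by
  classical
  have h : Ntot H = {f | f ∈ forms H ∧ True}.ncard := by simp [Ntot]
  have h2 := ncard_forms hH (fun _ => True)
  have h3 := ncard_forms hH LocallySoluble
  rw [h, h2]
  unfold Nloc
  rw [h3]
  refine Finset.card_le_card fun c hc => ?_
  have h4 := Finset.mem_filter.1 hc
  simp only [Finset.mem_filter]
  exact ⟨h4.1, h4.2.1, trivial⟩

theorem Nsmall_le_N (X : ℝ) {H : ℝ} (hH : 0 ≤ H) : Nsmall X H ≤ N H := by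
  classical
  unfold N Nsmall
  rw [ncard_forms hH, ncard_forms hH]
  refine Finset.card_le_card fun c hc => ?_
  rw [Finset.mem_filter] at hc ⊢
  obtain ⟨h1, h2, x, h3, -, h4⟩ := hc
  exact ⟨h1, h2, x, h3, h4⟩

theorem Nloc_le {X H : ℝ} (hH : 0 ≤ H) {Y : ℕ} (hY : (Y : ℝ) ≤ X) :
    Nloc H ≤ Nsmall X H + (excSet Y ⌊H⌋₊).card := by
  classical
  unfold Nloc Nsmall
  rw [ncard_forms hH, ncard_forms hH]
  refine le_trans (Finset.card_le_card fun c hc => ?_) (Finset.card_union_le _ _)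
  rw [Finset.mem_filter] at hc
  obtain ⟨h1, h2, h3⟩ := hc
  rw [Finset.mem_union]
  by_cases hx : ∃ x : Fin 4 → ℤ, x ≠ 0 ∧ (∀ i, |((x i : ℤ) : ℝ)| ≤ X) ∧ ev c x = 0
  · left
    rw [Finset.mem_filter]
    refine ⟨h1, h2, ?_⟩
    simpa only [eval_toP] using hx
  · right
    rw [excSet, Finset.mem_filter]
    refine ⟨h1, (loc_iff c).1 h3, fun x hx0 hxY h0 => hx ⟨x, hx0, fun i => ?_, h0⟩⟩
    have h4 : ((|x i| : ℤ) : ℝ) ≤ ((Y : ℤ) : ℝ) := by exact_mod_cast hxY i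
    push_cast at h4
    exact h4.trans hY

/-- Positive proportion. -/
theorem N_pos : ∃ c : ℝ, 0 < c ∧ ∀ᶠ H : ℝ in atTop,
    c * (2 * ((⌊H⌋₊ : ℕ) : ℝ) + 1) ^ 20 ≤ N H := by
  obtain ⟨c, hc, h⟩ := H90.posA
  refine ⟨c / 2, by positivity, ?_⟩
  have h1 : ∀ᶠ H : ℝ in atTop, c * (2 * ((⌊H⌋₊ : ℕ) : ℝ) + 1) ^ 20 ≤ ((ratSet ⌊H⌋₊).card : ℝ) :=
    tendsto_nat_floor_atTop.eventually h
  have h2 : Tendsto (fun H : ℝ => ((⌊H⌋₊ : ℕ) : ℝ)) atTop atTop :=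
    tendsto_natCast_atTop_atTop.comp tendsto_nat_floor_atTop
  filter_upwards [h1, h2.eventually_ge_atTop (2 / c), eventually_ge_atTop 0] with H h3 h4 hH
  have h5 := N_eq hH
  have h6 : ((N H : ℕ) : ℝ) + 1 = ((ratSet ⌊H⌋₊).card : ℝ) := by exact_mod_cast h5
  rw [← h6] at h3
  generalize ((⌊H⌋₊ : ℕ) : ℝ) = t at *
  have ht : 0 ≤ t := le_trans (by positivity) h4
  rw [div_le_iff₀ hc] at h4
  have h7 : t ≤ (2 * t + 1) ^ 20 := by
    calc t ≤ 2 * t + 1 := by linarith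
      _ ≤ (2 * t + 1) ^ 20 := le_self_pow₀ (by linarith) (by norm_num)
  have h8 : t * c ≤ (2 * t + 1) ^ 20 * c := mul_le_mul_of_nonneg_right h7 hc.le
  linarith

theorem small {ψ : ℝ → ℝ} (hψ : Tendsto ψ atTop atTop) :
    Tendsto (fun H : ℝ => (Nsmall (ψ H * H) H : ℝ) / Nloc H) atTop (𝓝 1) := by
  obtain ⟨c, hc, hpos⟩ := N_pos
  rw [Metric.tendsto_nhds]
  intro ε hε
  obtain ⟨M, hM, hexc⟩ := mainG (c * ε / 8) (by positivity)
  have h1 : ∀ᶠ H : ℝ in atTop, ((excSet (M * ⌊H⌋₊) ⌊H⌋₊).card : ℝ) ≤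
      4 * (c * ε / 8) * (2 * ((⌊H⌋₊ : ℕ) : ℝ) + 1) ^ 20 :=
    tendsto_nat_floor_atTop.eventually hexc
  filter_upwards [h1, hpos, hψ.eventually_ge_atTop (M : ℝ), eventually_ge_atTop 1] with H h2 h3 h4 hH
  have hH0 : (0 : ℝ) ≤ H := by linarith
  have hfl : ((⌊H⌋₊ : ℕ) : ℝ) ≤ H := Nat.floor_le hH0
  have h5 : (((M * ⌊H⌋₊ : ℕ) : ℕ) : ℝ) ≤ ψ H * H := by
    push_cast
    exact mul_le_mul h4 hfl (Nat.cast_nonneg _) (le_trans (Nat.cast_nonneg _) h4)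
  have h6 := Nloc_le hH0 h5
  have h7 := Nsmall_le_N (ψ H * H) hH0
  have h8 := N_le_Nloc hH0
  have h6' : (Nloc H : ℝ) ≤ Nsmall (ψ H * H) H + ((excSet (M * ⌊H⌋₊) ⌊H⌋₊).card : ℝ) := by
    exact_mod_cast h6
  have h7' : (Nsmall (ψ H * H) H : ℝ) ≤ N H := by exact_mod_cast h7
  have h8' : (N H : ℝ) ≤ Nloc H := by exact_mod_cast h8
  have hP : (0 : ℝ) < (2 * ((⌊H⌋₊ : ℕ) : ℝ) + 1) ^ 20 := by positivity
  generalize (2 * ((⌊H⌋₊ : ℕ) : ℝ) + 1) ^ 20 = P at *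
  have hloc : (0 : ℝ) < Nloc H := by
    have := mul_pos hc hP
    linarith
  rw [Real.dist_eq, abs_sub_comm, abs_of_nonneg]
  · have h9 : (1 : ℝ) - (Nsmall (ψ H * H) H : ℝ) / Nloc H =
        ((Nloc H : ℝ) - Nsmall (ψ H * H) H) / Nloc H := by field_simp
    rw [h9, div_lt_iff₀ hloc]
    have h10 : c * P ≤ Nloc H := h3.trans h8'
    have h11 : ε * (c * P) ≤ ε * Nloc H := mul_le_mul_of_nonneg_left h10 hε.le
    have h12 : 0 < ε * (c * P) := by positivity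
    have h13 : 4 * (c * ε / 8) * P = ε * (c * P) / 2 := by ring
    linarith
  · rw [sub_nonneg, div_le_one hloc]
    linarith

/-- **The Hasse principle for almost all cubic surfaces.**  With `N_tot`, `N`, `N_loc` as in the
problem file, `N(H)/N_tot(H) ∼ N_loc(H)/N_tot(H)` and `N(H)/N_loc(H) → 1` as `H → ∞`; and for every
function `ψ` with `ψ(H) → ∞` this already holds with the forms counted that have an integer zero
`x`, `0 < |x| ≤ ψ(H) H`. -/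
theorem result :
    ((fun H : ℝ => (N H : ℝ) / Ntot H) ~[atTop] fun H : ℝ => (Nloc H : ℝ) / Ntot H) ∧
    Tendsto (fun H : ℝ => (N H : ℝ) / Nloc H) atTop (𝓝 1) ∧
    ∀ ψ : ℝ → ℝ, Tendsto ψ atTop atTop →
      Tendsto (fun H : ℝ => (Nsmall (ψ H * H) H : ℝ) / Nloc H) atTop (𝓝 1) := by
  obtain ⟨c, hc, hpos⟩ := N_pos
  have hev : ∀ᶠ H : ℝ in atTop, 0 ≤ H ∧ (0 : ℝ) < N H ∧ (0 : ℝ) < Nloc H ∧ (0 : ℝ) < Ntot H := by
    filter_upwards [hpos, eventually_ge_atTop 0] with H h1 hH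
    have h2 : (N H : ℝ) ≤ Nloc H := by exact_mod_cast N_le_Nloc hH
    have h3 : (Nloc H : ℝ) ≤ Ntot H := by exact_mod_cast Nloc_le_Ntot hH
    have h4 : (0 : ℝ) < c * (2 * ((⌊H⌋₊ : ℕ) : ℝ) + 1) ^ 20 := by positivity
    exact ⟨hH, by linarith, by linarith, by linarith⟩
  have h2 : Tendsto (fun H : ℝ => (N H : ℝ) / Nloc H) atTop (𝓝 1) := by
    refine tendsto_of_tendsto_of_tendsto_of_le_of_le' (small tendsto_id) tendsto_const_nhds ?_ ?_
    · filter_upwards [hev] with H hev1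
      obtain ⟨hH, -, h4, -⟩ := hev1
      have h5 : (Nsmall (id H * H) H : ℝ) ≤ N H := by exact_mod_cast Nsmall_le_N _ hH
      exact div_le_div_of_nonneg_right h5 h4.le
    · filter_upwards [hev] with H hev1
      obtain ⟨hH, -, h4, -⟩ := hev1
      rw [div_le_one h4]
      exact_mod_cast N_le_Nloc hH
  refine ⟨?_, h2, fun ψ hψ => small hψ⟩
  rw [isEquivalent_iff_tendsto_one]
  · refine h2.congr' ?_
    filter_upwards [hev] with H hev1
    obtain ⟨-, -, h4, h5⟩ := hev1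
    simp only [Pi.div_apply]
    field_simp
  · filter_upwards [hev] with H hev1
    obtain ⟨-, -, h4, h5⟩ := hev1
    exact (div_pos h4 h5).ne'

end Pool.Agent.Results.MP_95ac01_nt.SmallPoints
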